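import Pool.Agent.Lib.MP_b24dd2_co.Final

/-!
# A binary design beats all non-binary efficiency-balanced designs with the same parameters
-/

set_option autoImplicit false

open scoped Matrix
open Polynomial

namespace Pool.Agent.Results.MP_b24dd2_co.BinaryBeatsBalanced

/-- block designs with `v` treatments, `b` blocks of `k` plots and replication `r`, given by the incidence matrix -/
structure IsDesign {v b : ℕ} (k r : ℕ) (N : Matrix (Fin v) (Fin b) ℕ) : Prop where
  row : ∀ i, ∑ j, N i j = r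
  col : ∀ j, ∑ i, N i j = k

/-- binary designs -/
def IsBinary {v b : ℕ} (N : Matrix (Fin v) (Fin b) ℕ) : Prop := ∀ i j, N i j ≤ 1

/-- the information matrix `C = r I - (1/k) N Nᵀ` -/
noncomputable def infoMatrix {v b : ℕ} (k r : ℕ) (N : Matrix (Fin v) (Fin b) ℕ) :
    Matrix (Fin v) (Fin v) ℝ :=
  (r : ℝ) • 1 - (1 / (k : ℝ)) • (N.map (Nat.cast : ℕ → ℝ) * (N.map (Nat.cast : ℕ → ℝ))ᵀ)

open Classical in
/-- the canonical efficiency factors: the eigenvalues of `C / r` with multiplicities, one eigenvalue `0` (of the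
all-ones vector) left out -/
noncomputable def effFactors {v b : ℕ} (k r : ℕ) (N : Matrix (Fin v) (Fin b) ℕ) : Multiset ℝ :=
  ((1 / (r : ℝ)) • infoMatrix k r N).charpoly.roots.erase 0

open Classical in
/-- the efficiency factor: the harmonic mean of the canonical efficiency factors, `0` if one of them is `0` -/
noncomputable def effFactor {v b : ℕ} (k r : ℕ) (N : Matrix (Fin v) (Fin b) ℕ) : ℝ :=
  if (0 : ℝ) ∈ effFactors k r N then 0
  else (Multiset.card (effFactors k r N) : ℝ) / ((effFactors k r N).map fun x => x⁻¹).sum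

/-- efficiency-balanced designs: all canonical efficiency factors are equal -/
def IsEfficiencyBalanced {v b : ℕ} (k r : ℕ) (N : Matrix (Fin v) (Fin b) ℕ) : Prop :=
  ∃ e : ℝ, ∀ x ∈ effFactors k r N, x = e

/-! ### Linear algebra -/

private noncomputable def PP (v : ℕ) : Matrix (Fin v) (Fin v) ℝ :=
  (1 / (v : ℝ)) • Matrix.of (fun _ _ => (1 : ℝ))

private theorem PP_charpoly {v : ℕ} (hv : 0 < v) (e : ℝ) :
    (e • PP v).charpoly = X ^ (v - 1) * (X - C e) := by
  have h1 : e • PP v = Matrix.vecMulVec (fun _ => e / v) (fun _ => 1) := by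
    ext i j
    simp [PP, Matrix.vecMulVec_apply]
    ring
  rw [h1, Matrix.charpoly_vecMulVec]
  have hv' : (v : ℝ) ≠ 0 := by exact_mod_cast hv.ne'
  have h2 : (fun _ : Fin v => e / (v : ℝ)) ⬝ᵥ (fun _ => 1) = e := by
    simp [dotProduct]
    field_simp
  rw [h2, Fintype.card_fin, mul_sub, ← pow_succ, Nat.sub_add_cancel hv, Polynomial.smul_eq_C_mul,
    mul_comm (C e)]

private theorem charpoly_rel {v : ℕ} (A B : Matrix (Fin v) (Fin v) ℝ) (h : A * B = 0) :
    A.charpoly * B.charpoly = X ^ v * (A + B).charpoly := by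
  unfold Matrix.charpoly
  rw [← Matrix.det_mul]
  have h1 : A.charmatrix * B.charmatrix = (X : ℝ[X]) • (A + B).charmatrix := by
    unfold Matrix.charmatrix
    have h2 : (C : ℝ →+* ℝ[X]).mapMatrix A * (C : ℝ →+* ℝ[X]).mapMatrix B = 0 := by
      rw [← map_mul, h, map_zero]
    rw [map_add, sub_mul, mul_sub, mul_sub, h2, sub_zero]
    simp only [Matrix.scalar_apply]
    rw [← Matrix.smul_one_eq_diagonal]
    rw [smul_mul_assoc, one_mul, smul_mul_assoc, one_mul, mul_smul_comm, mul_one, smul_sub,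
      smul_add]
    abel
  rw [h1, Matrix.det_smul, Fintype.card_fin]

/-- the matrix `C / r` -/
private noncomputable def AA {v b : ℕ} (k r : ℕ) (N : Matrix (Fin v) (Fin b) ℕ) :
    Matrix (Fin v) (Fin v) ℝ := (1 / (r : ℝ)) • infoMatrix k r N

private theorem AA_eq {v b : ℕ} {k r : ℕ} (hr : 0 < r) (N : Matrix (Fin v) (Fin b) ℕ) :
    AA k r N = (1 : Matrix (Fin v) (Fin v) ℝ) - (1 / ((r : ℝ) * (k : ℝ))) •
      (N.map (Nat.cast : ℕ → ℝ) * (N.map (Nat.cast : ℕ → ℝ))ᵀ) := by
  have hr' : (r : ℝ) ≠ 0 := by exact_mod_cast hr.ne'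
  unfold AA infoMatrix
  rw [smul_sub, smul_smul, smul_smul, one_div_mul_cancel hr', one_smul, one_div_mul_one_div]

private theorem AA_herm {v b : ℕ} (k r : ℕ) (N : Matrix (Fin v) (Fin b) ℕ) (e : ℝ) :
    (AA k r N + e • PP v).IsHermitian := by
  ext i j
  simp only [Matrix.conjTranspose_apply, Matrix.add_apply, AA, infoMatrix, Matrix.smul_apply,
    Matrix.sub_apply, Matrix.mul_apply, Matrix.map_apply, Matrix.transpose_apply, PP,
    Matrix.of_apply, star_trivial, smul_eq_mul]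
  have h1 : (1 : Matrix (Fin v) (Fin v) ℝ) j i = (1 : Matrix (Fin v) (Fin v) ℝ) i j := by
    rw [Matrix.one_apply, Matrix.one_apply]
    simp only [eq_comm]
  rw [h1]
  have h2 : ∑ x, (N j x : ℝ) * (N i x : ℝ) = ∑ x, (N i x : ℝ) * (N j x : ℝ) :=
    Finset.sum_congr rfl fun x _ => mul_comm _ _
  rw [h2]

private theorem AA_PP {v b : ℕ} {k r : ℕ} (hr : 0 < r) (hk : 0 < k) (N : Matrix (Fin v) (Fin b) ℕ)
    (hN : IsDesign k r N) (e : ℝ) : AA k r N * (e • PP v) = 0 := by
  have hr' : (r : ℝ) ≠ 0 := by exact_mod_cast hr.ne'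
  have hk' : (k : ℝ) ≠ 0 := by exact_mod_cast hk.ne'
  have hJ : AA k r N * (Matrix.of (fun _ _ => (1 : ℝ)) : Matrix (Fin v) (Fin v) ℝ) = 0 := by
    rw [AA_eq hr]
    have h1 := Pool.Agent.Lib.MP_b24dd2_co.gram_mul_JJ hN.row hN.col
    unfold Pool.Agent.Lib.MP_b24dd2_co.gram Pool.Agent.Lib.MP_b24dd2_co.JJ at h1
    rw [sub_mul, one_mul, smul_mul_assoc, h1, smul_smul,
      one_div_mul_cancel (mul_ne_zero hr' hk'), one_smul, sub_self]
  unfold PP
  rw [mul_smul_comm, mul_smul_comm, hJ, smul_zero, smul_zero]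

private theorem roots_rel {v b : ℕ} {k r : ℕ} (hv : 0 < v) (hr : 0 < r) (hk : 0 < k)
    (N : Matrix (Fin v) (Fin b) ℕ) (hN : IsDesign k r N) (e : ℝ) :
    e ::ₘ (AA k r N).charpoly.roots = 0 ::ₘ (AA k r N + e • PP v).charpoly.roots := by
  have h1 := charpoly_rel (AA k r N) (e • PP v) (AA_PP hr hk N hN e)
  rw [PP_charpoly hv] at h1
  have h2 := congrArg Polynomial.roots h1
  have hA : (AA k r N).charpoly ≠ 0 := (Matrix.charpoly_monic _).ne_zero
  have hB : (AA k r N + e • PP v).charpoly ≠ 0 := (Matrix.charpoly_monic _).ne_zero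
  have hX : (X : ℝ[X]) ^ (v - 1) ≠ 0 := pow_ne_zero _ X_ne_zero
  have hX2 : (X : ℝ[X]) ^ v ≠ 0 := pow_ne_zero _ X_ne_zero
  rw [roots_mul (mul_ne_zero hA (mul_ne_zero hX (X_sub_C_ne_zero e))),
    roots_mul (mul_ne_zero hX (X_sub_C_ne_zero e)), roots_mul (mul_ne_zero hX2 hB), roots_pow,
    roots_pow, roots_X, roots_X_sub_C, Multiset.nsmul_singleton, Multiset.nsmul_singleton] at h2
  obtain ⟨w, rfl⟩ : ∃ w, v = w + 1 := ⟨v - 1, by omega⟩
  rw [Nat.add_sub_cancel, Multiset.replicate_succ, Multiset.cons_add] at h2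
  have h3 : Multiset.replicate w (0 : ℝ) + (e ::ₘ (AA k r N).charpoly.roots) =
      Multiset.replicate w (0 : ℝ) + (0 ::ₘ (AA k r N + e • PP (w + 1)).charpoly.roots) := by
    have h4 : Multiset.replicate w (0 : ℝ) + (e ::ₘ (AA k r N).charpoly.roots) =
        (AA k r N).charpoly.roots + (Multiset.replicate w 0 + {e}) := by
      rw [← Multiset.singleton_add e]
      abel
    rw [h4, h2, Multiset.add_cons]
  exact add_left_cancel h3

private theorem roots_M {v b : ℕ} {k r : ℕ} (hv : 0 < v) (hr : 0 < r) (hk : 0 < k)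
    (N : Matrix (Fin v) (Fin b) ℕ) (hN : IsDesign k r N) (e : ℝ) :
    (AA k r N + e • PP v).charpoly.roots = e ::ₘ effFactors k r N := by
  have h1 := roots_rel hv hr hk N hN 1
  have h0 : (0 : ℝ) ∈ (AA k r N).charpoly.roots := by
    have : (0 : ℝ) ∈ (1 : ℝ) ::ₘ (AA k r N).charpoly.roots := by
      rw [h1]
      exact Multiset.mem_cons_self _ _
    rcases Multiset.mem_cons.1 this with h | h
    · exact absurd h.symm one_ne_zero
    · exact h
  have h2 : (AA k r N).charpoly.roots = 0 ::ₘ effFactors k r N := by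
    unfold effFactors
    exact (Multiset.cons_erase h0).symm
  have h3 := roots_rel hv hr hk N hN e
  rw [h2, Multiset.cons_swap, Multiset.cons_inj_right] at h3
  exact h3.symm

private theorem card_eff {v b : ℕ} {k r : ℕ} (hv : 0 < v) (hr : 0 < r) (hk : 0 < k)
    (N : Matrix (Fin v) (Fin b) ℕ) (hN : IsDesign k r N) :
    Multiset.card (effFactors k r N) + 1 = v := by
  have h1 := congrArg Multiset.card (roots_M hv hr hk N hN 1)
  rw [(AA_herm k r N 1).roots_charpoly_eq_eigenvalues, Multiset.card_map,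
    Multiset.card_cons] at h1
  simp at h1
  exact h1.symm

private theorem inv_conj {v : ℕ} {M : Matrix (Fin v) (Fin v) ℝ} (hM : M.IsHermitian)
    (hdet : M.det ≠ 0) : M⁻¹.trace = ∑ i, (hM.eigenvalues i)⁻¹ := by
  have hne : ∀ i, hM.eigenvalues i ≠ 0 := by
    intro i h0
    apply hdet
    rw [hM.det_eq_prod_eigenvalues]
    exact Finset.prod_eq_zero (Finset.mem_univ i) (by rw [h0]; rfl)
  obtain ⟨W, hW⟩ : ∃ W : Matrix (Fin v) (Fin v) ℝ,
      W = Unitary.conjStarAlgAut ℝ _ hM.eigenvectorUnitary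
        (Matrix.diagonal fun i => (hM.eigenvalues i)⁻¹) := ⟨_, rfl⟩
  have h1 : M * W = 1 := by
    conv_lhs => rw [hM.spectral_theorem, hW]
    rw [← map_mul, Matrix.diagonal_mul_diagonal]
    have h2 : (Matrix.diagonal fun i => (RCLike.ofReal ∘ hM.eigenvalues) i *
        (hM.eigenvalues i)⁻¹ : Matrix (Fin v) (Fin v) ℝ) = 1 := by
      rw [← Matrix.diagonal_one]
      congr 1
      funext i
      exact mul_inv_cancel₀ (hne i)
    rw [h2, map_one]
  rw [Matrix.inv_eq_right_inv h1, hW, Unitary.conjStarAlgAut_apply, Matrix.trace_mul_comm,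
    ← mul_assoc]
  simp [Matrix.trace_diagonal]

private theorem eff_formula {v b : ℕ} {k r : ℕ} (hv : 0 < v) (hr : 0 < r) (hk : 0 < k)
    (N : Matrix (Fin v) (Fin b) ℕ) (hN : IsDesign k r N)
    (hdet : (AA k r N + (1 : ℝ) • PP v).det ≠ 0) :
    (0 : ℝ) ∉ effFactors k r N ∧
    effFactor k r N = ((v : ℝ) - 1) / ((AA k r N + (1 : ℝ) • PP v)⁻¹.trace - 1) := by
  have hH := AA_herm k r N 1
  have hR := roots_M hv hr hk N hN 1
  rw [hH.roots_charpoly_eq_eigenvalues] at hR
  have h0 : (0 : ℝ) ∉ effFactors k r N := by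
    intro h0
    have h1 : (0 : ℝ) ∈ Multiset.map (RCLike.ofReal ∘ hH.eigenvalues) Finset.univ.val := by
      rw [hR]
      exact Multiset.mem_cons_of_mem h0
    rw [Multiset.mem_map] at h1
    obtain ⟨i, -, hi⟩ := h1
    apply hdet
    rw [hH.det_eq_prod_eigenvalues]
    exact Finset.prod_eq_zero (Finset.mem_univ i) hi
  refine ⟨h0, ?_⟩
  have h2 : (AA k r N + (1 : ℝ) • PP v)⁻¹.trace =
      1 + ((effFactors k r N).map fun x => x⁻¹).sum := by
    rw [inv_conj hH hdet]
    have h3 := congrArg (fun s : Multiset ℝ => (s.map fun x => x⁻¹).sum) hR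
    simp only [Multiset.map_cons, Multiset.sum_cons, Multiset.map_map, inv_one] at h3
    rw [← h3]
    rfl
  unfold effFactor
  rw [if_neg h0, h2, add_sub_cancel_left]
  congr 1
  have h4 := card_eff hv hr hk N hN
  have h5 : ((Multiset.card (effFactors k r N) : ℕ) : ℝ) + 1 = v := by exact_mod_cast h4
  linarith

private theorem balanced_eq {v b : ℕ} {k r : ℕ} (hv : 2 ≤ v) (hr : 0 < r) (hk : 0 < k)
    (N : Matrix (Fin v) (Fin b) ℕ) (hN : IsDesign k r N) (hE : IsEfficiencyBalanced k r N) :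
    AA k r N = effFactor k r N • (1 - PP v) := by
  obtain ⟨e, he⟩ := hE
  have hv0 : 0 < v := by omega
  have hcard := card_eff hv0 hr hk N hN
  have hrep : effFactors k r N = Multiset.replicate (v - 1) e := by
    rw [Multiset.eq_replicate]
    exact ⟨by omega, he⟩
  have hEF : effFactor k r N = e := by
    unfold effFactor
    rw [hrep]
    by_cases h0 : e = 0
    · rw [if_pos, h0]
      rw [Multiset.mem_replicate]
      exact ⟨by omega, h0.symm⟩
    · rw [if_neg, Multiset.card_replicate, Multiset.map_replicate, Multiset.sum_replicate,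
        nsmul_eq_mul]
      · have : ((v - 1 : ℕ) : ℝ) ≠ 0 := by
          have : v - 1 ≠ 0 := by omega
          exact_mod_cast this
        field_simp
      · rw [Multiset.mem_replicate]
        exact fun h => h0 h.2.symm
  rw [hEF]
  have hH := AA_herm k r N e
  have hR := roots_M hv0 hr hk N hN e
  rw [hH.roots_charpoly_eq_eigenvalues] at hR
  have hev : ∀ i, hH.eigenvalues i = e := by
    intro i
    have h1 : (RCLike.ofReal ∘ hH.eigenvalues) i ∈ e ::ₘ effFactors k r N := by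
      rw [← hR]
      exact Multiset.mem_map_of_mem _ (Finset.mem_univ i)
    rcases Multiset.mem_cons.1 h1 with h | h
    · exact h
    · exact he _ h
  have h2 : AA k r N + e • PP v = e • (1 : Matrix (Fin v) (Fin v) ℝ) := by
    rw [hH.spectral_theorem]
    have h3 : (Matrix.diagonal (RCLike.ofReal ∘ hH.eigenvalues) : Matrix (Fin v) (Fin v) ℝ) =
        e • 1 := by
      rw [Matrix.smul_one_eq_diagonal]
      congr 1
      funext i
      exact hev i
    rw [h3, map_smul, map_one]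
  rw [smul_sub, ← h2, add_sub_cancel_right]


/-! ### The quadratic form -/

private theorem weight_id {n : Type*} [Fintype n] (w x : n → ℝ) :
    ∑ i, ∑ i', w i * w i' * (x i - x i') ^ 2 =
      2 * ((∑ i, w i) * (∑ i, w i * x i ^ 2) - (∑ i, w i * x i) ^ 2) := by
  have h1 : ∀ i i', w i * w i' * (x i - x i') ^ 2 =
      (w i * x i ^ 2) * w i' + w i * (w i' * x i' ^ 2) - 2 * ((w i * x i) * (w i' * x i')) := by
    intro i i'
    ring
  simp only [h1, Finset.sum_sub_distrib, Finset.sum_add_distrib, ← Finset.mul_sum,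
    ← Finset.sum_mul]
  ring

private theorem quad {v b : ℕ} {k r : ℕ} (hr : 0 < r) (hk : 0 < k)
    (N : Matrix (Fin v) (Fin b) ℕ) (hN : IsDesign k r N) (x : Fin v → ℝ) :
    x ⬝ᵥ ((AA k r N + (1 : ℝ) • PP v) *ᵥ x) =
      1 / (2 * ((r : ℝ) * k)) * ∑ j, ∑ i, ∑ i', (N i j : ℝ) * (N i' j : ℝ) * (x i - x i') ^ 2 +
      1 / (v : ℝ) * (∑ i, x i) ^ 2 := by
  have hr' : (r : ℝ) ≠ 0 := by exact_mod_cast hr.ne'
  have hk' : (k : ℝ) ≠ 0 := by exact_mod_cast hk.ne'
  rw [Matrix.add_mulVec, dotProduct_add]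
  congr 1
  · rw [AA_eq hr, Matrix.sub_mulVec, dotProduct_sub, Matrix.one_mulVec, Matrix.smul_mulVec,
      dotProduct_smul, smul_eq_mul]
    have h1 : x ⬝ᵥ ((N.map (Nat.cast : ℕ → ℝ) * (N.map (Nat.cast : ℕ → ℝ))ᵀ) *ᵥ x) =
        ∑ j, (∑ i, (N i j : ℝ) * x i) ^ 2 := by
      rw [← Matrix.mulVec_mulVec, Matrix.dotProduct_mulVec, ← Matrix.mulVec_transpose]
      refine Finset.sum_congr rfl fun j _ => ?_
      have : ((N.map (Nat.cast : ℕ → ℝ))ᵀ *ᵥ x) j = ∑ i, (N i j : ℝ) * x i := rfl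
      rw [this, sq]
    rw [h1]
    have h2 : ∀ j, ∑ i, ∑ i', (N i j : ℝ) * (N i' j : ℝ) * (x i - x i') ^ 2 =
        2 * (k * (∑ i, (N i j : ℝ) * x i ^ 2) - (∑ i, (N i j : ℝ) * x i) ^ 2) := by
      intro j
      rw [weight_id (fun i => (N i j : ℝ)) x]
      have : ∑ i, (N i j : ℝ) = k := by
        rw [← Nat.cast_sum, hN.col j]
      rw [this]
    simp only [h2]
    rw [← Finset.mul_sum, Finset.sum_sub_distrib, ← Finset.mul_sum]
    have h3 : ∑ j, ∑ i, (N i j : ℝ) * x i ^ 2 = r * (x ⬝ᵥ x) := by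
      rw [Finset.sum_comm]
      unfold dotProduct
      rw [Finset.mul_sum]
      refine Finset.sum_congr rfl fun i _ => ?_
      rw [← Finset.sum_mul, ← Nat.cast_sum, hN.row i]
      ring
    rw [h3]
    field_simp
  · rw [one_smul]
    unfold PP
    rw [Matrix.smul_mulVec, dotProduct_smul, smul_eq_mul]
    congr 1
    have : ((Matrix.of fun _ _ => (1 : ℝ)) : Matrix (Fin v) (Fin v) ℝ) *ᵥ x =
        fun _ => ∑ i, x i := by
      funext i
      simp [Matrix.mulVec, dotProduct]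
    rw [this]
    unfold dotProduct
    rw [← Finset.sum_mul, sq]

private theorem quad_nonneg {v b : ℕ} {k r : ℕ} (hr : 0 < r) (hk : 0 < k)
    (N : Matrix (Fin v) (Fin b) ℕ) (hN : IsDesign k r N) (x : Fin v → ℝ) :
    0 ≤ x ⬝ᵥ ((AA k r N + (1 : ℝ) • PP v) *ᵥ x) := by
  rw [quad hr hk N hN x]
  have : 0 ≤ ∑ j, ∑ i, ∑ i', (N i j : ℝ) * (N i' j : ℝ) * (x i - x i') ^ 2 :=
    Finset.sum_nonneg fun j _ => Finset.sum_nonneg fun i _ => Finset.sum_nonneg fun i' _ => by
      positivity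
  positivity

private theorem eff_nonneg {v b : ℕ} {k r : ℕ} (hv : 0 < v) (hr : 0 < r) (hk : 0 < k)
    (N : Matrix (Fin v) (Fin b) ℕ) (hN : IsDesign k r N) : ∀ x ∈ effFactors k r N, 0 ≤ x := by
  intro x hx
  have hps : (AA k r N + (1 : ℝ) • PP v).PosSemidef := by
    refine Matrix.PosSemidef.of_dotProduct_mulVec_nonneg (AA_herm k r N 1) fun y => ?_
    rw [star_trivial]
    exact quad_nonneg hr hk N hN y
  have hR := roots_M hv hr hk N hN 1
  rw [(AA_herm k r N 1).roots_charpoly_eq_eigenvalues] at hR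
  have h1 : x ∈ Multiset.map (RCLike.ofReal ∘ (AA_herm k r N 1).eigenvalues)
      Finset.univ.val := by
    rw [hR]
    exact Multiset.mem_cons_of_mem hx
  rw [Multiset.mem_map] at h1
  obtain ⟨i, -, hi⟩ := h1
  rw [← hi]
  exact hps.eigenvalues_nonneg i

/-! ### The three cases -/

private theorem case_full {v b k r : ℕ} (hk : 2 ≤ k) (hkv : k = v)
    (D : Matrix (Fin v) (Fin b) ℕ) (hD : IsDesign k r D) (hnb : ¬ IsBinary D)
    (hE : IsEfficiencyBalanced k r D) (hr : 0 < r) :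
    ∃ N : Matrix (Fin v) (Fin b) ℕ, IsDesign k r N ∧ IsBinary N ∧
      effFactor k r D < effFactor k r N := by
  subst hkv
  have hk0 : 0 < k := by omega
  have hkR : (0 : ℝ) < k := by exact_mod_cast hk0
  have hrR : (0 : ℝ) < r := by exact_mod_cast hr
  have hbr : b = r := by
    have h1 : ∑ i, ∑ j, D i j = k * r := by simp [hD.row]
    have h2 : ∑ j, ∑ i, D i j = b * k := by simp [hD.col]
    have h3 : (∑ i, ∑ j, D i j : ℕ) = ∑ j, ∑ i, D i j := Finset.sum_comm
    rw [h1, h2, mul_comm] at h3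
    exact (Nat.eq_of_mul_eq_mul_right hk0 h3).symm
  subst hbr
  obtain ⟨N, hN1⟩ : ∃ N : Matrix (Fin k) (Fin b) ℕ, ∀ i j, N i j = 1 :=
    ⟨Matrix.of fun _ _ => 1, fun _ _ => rfl⟩
  have hN : IsDesign k b N := ⟨fun i => by simp [hN1], fun j => by simp [hN1]⟩
  refine ⟨N, hN, fun i j => (hN1 i j).le, ?_⟩
  have hM : AA k b N + (1 : ℝ) • PP k = 1 := by
    rw [AA_eq hr]
    ext i j
    simp only [Matrix.add_apply, Matrix.sub_apply, Matrix.smul_apply, Matrix.mul_apply,
      Matrix.map_apply, Matrix.transpose_apply, PP, Matrix.of_apply, smul_eq_mul, hN1]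
    simp
    field_simp
    ring
  have hEF : effFactor k b N = 1 := by
    have h1 := (eff_formula hk0 hr hk0 _ hN (by rw [hM, Matrix.det_one]; exact one_ne_zero)).2
    rw [h1, hM, inv_one, Matrix.trace_one, Fintype.card_fin]
    have : (k : ℝ) - 1 ≠ 0 := by
      have : (2 : ℝ) ≤ k := by exact_mod_cast hk
      linarith
    exact div_self this
  rw [hEF]
  have h2 := balanced_eq hk hr hk0 D hD hE
  have h3 := congrArg Matrix.trace h2
  rw [AA_eq hr, Matrix.trace_sub, Matrix.trace_smul, Matrix.trace_smul, Matrix.trace_sub,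
    Matrix.trace_one, Fintype.card_fin] at h3
  have h4 : (PP k).trace = 1 := by
    unfold PP
    rw [Matrix.trace_smul]
    simp [Matrix.trace]
    field_simp
  have h5 : (D.map (Nat.cast : ℕ → ℝ) * (D.map (Nat.cast : ℕ → ℝ))ᵀ).trace =
      ∑ i, ∑ j, (D i j : ℝ) ^ 2 := by
    simp only [Matrix.trace, Matrix.diag_apply, Matrix.mul_apply, Matrix.map_apply,
      Matrix.transpose_apply]
    exact Finset.sum_congr rfl fun i _ => Finset.sum_congr rfl fun j _ => by ring
  have h6 : (k : ℝ) * b < ∑ i, ∑ j, (D i j : ℝ) ^ 2 := by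
    have h7 : (k : ℝ) * b = ∑ i, ∑ j, (D i j : ℝ) := by
      have : ∀ i, ∑ j, (D i j : ℝ) = b := by
        intro i
        rw [← Nat.cast_sum, hD.row i]
      simp only [this]
      simp
    rw [h7]
    unfold IsBinary at hnb
    push Not at hnb
    obtain ⟨i0, j0, hij⟩ := hnb
    have h8 : ∀ i j, (D i j : ℝ) ≤ (D i j : ℝ) ^ 2 := by
      intro i j
      have : D i j ≤ D i j ^ 2 := Nat.le_self_pow two_ne_zero _
      exact_mod_cast this
    refine Finset.sum_lt_sum (fun i _ => Finset.sum_le_sum fun j _ => h8 i j)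
      ⟨i0, Finset.mem_univ _, Finset.sum_lt_sum (fun j _ => h8 i0 j) ⟨j0, Finset.mem_univ _, ?_⟩⟩
    have : (1 : ℝ) < D i0 j0 := by exact_mod_cast hij
    nlinarith
  rw [h4, h5, smul_eq_mul, smul_eq_mul] at h3
  have hk1 : (0 : ℝ) < (k : ℝ) - 1 := by
    have : (2 : ℝ) ≤ k := by exact_mod_cast hk
    linarith
  have h9 : 1 < 1 / ((b : ℝ) * k) * ∑ i, ∑ j, (D i j : ℝ) ^ 2 := by
    rw [one_div, inv_mul_eq_div, lt_div_iff₀ (by positivity)]
    linarith
  by_contra hcon
  push Not at hcon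
  nlinarith

private theorem frozen_core :
  ∀ (v b k r : ℕ), 2 ≤ k → k < v →
    ∀ N' : Matrix (Fin v) (Fin b) ℕ,
      (∀ i, ∑ j, N' i j = r) → (∀ j, ∑ i, N' i j = k) → (∃ i j, 2 ≤ N' i j) →
      ∀ e : ℝ, 0 < e →
        (1 : Matrix (Fin v) (Fin v) ℝ)
            - (1 / ((r : ℝ) * (k : ℝ))) •
                (N'.map (Nat.cast : ℕ → ℝ) * (N'.map (Nat.cast : ℕ → ℝ))ᵀ)
          = e • ((1 : Matrix (Fin v) (Fin v) ℝ)
                  - (1 / (v : ℝ)) • Matrix.of (fun _ _ => (1 : ℝ))) →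
        Pool.Agent.Lib.MP_b24dd2_co.Concl v b k r e := by
  intro v b k r hk hkv N' h1 h2 hnb e he heq
  obtain ⟨i0, j0, hij⟩ := hnb
  have hr0 : 0 < r := by
    have : N' i0 j0 ≤ ∑ j, N' i0 j := Finset.single_le_sum (f := fun j => N' i0 j)
      (fun _ _ => Nat.zero_le _) (Finset.mem_univ j0)
    rw [h1 i0] at this
    omega
  have hrR : (0 : ℝ) < r := by exact_mod_cast hr0
  have hkR : (0 : ℝ) < k := by
    have : 0 < k := by omega
    exact_mod_cast this
  have hvR : (0 : ℝ) < v := by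
    have : 0 < v := by omega
    exact_mod_cast this
  have hrk : (0 : ℝ) < (r : ℝ) * k := mul_pos hrR hkR
  -- entries of the hypothesis
  have hent : ∀ a c : Fin v, (1 : Matrix (Fin v) (Fin v) ℝ) a c
      - (1 / ((r : ℝ) * (k : ℝ))) * ∑ j, (N' a j : ℝ) * (N' c j : ℝ)
      = e * ((1 : Matrix (Fin v) (Fin v) ℝ) a c - 1 / (v : ℝ)) := by
    intro a c
    have h := congrFun (congrFun heq a) c
    simpa [Matrix.mul_apply] using h
  let a0 : Fin v := ⟨0, by omega⟩
  let a1 : Fin v := ⟨1, by omega⟩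
  have ha01 : a0 ≠ a1 := by simp [a0, a1]
  have hoff : ∀ a c : Fin v, a ≠ c → (v : ℝ) * ∑ j, (N' a j : ℝ) * (N' c j : ℝ) =
      e * ((r : ℝ) * k) := by
    intro a c hac
    have h := hent a c
    rw [Matrix.one_apply_ne hac] at h
    field_simp at h
    linarith
  have hdiag : ∀ a : Fin v, (v : ℝ) * ∑ j, (N' a j : ℝ) * (N' a j : ℝ) =
      (v : ℝ) * ((r : ℝ) * k) - ((v : ℝ) - 1) * (e * ((r : ℝ) * k)) := by
    intro a
    have h := hent a a
    rw [Matrix.one_apply_eq] at h
    generalize (∑ j, (N' a j : ℝ) * (N' a j : ℝ)) = S at h ⊢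
    field_simp at h
    linarith
  obtain ⟨β, hβdef⟩ : ∃ β : ℕ, β = ∑ j, N' a0 j * N' a1 j := ⟨_, rfl⟩
  have hβR : (v : ℝ) * (β : ℝ) = e * ((r : ℝ) * k) := by
    rw [← hoff a0 a1 ha01, hβdef]
    push_cast
    rfl
  have h3 : ∀ a d, a ≠ d → ∑ j, N' a j * N' d j = β := by
    intro a d had
    have h5 : (v : ℝ) * ((∑ j, N' a j * N' d j : ℕ) : ℝ) = (v : ℝ) * (β : ℝ) := by
      rw [hβR, ← hoff a d had]
      push_cast
      rfl
    have h6 := mul_left_cancel₀ hvR.ne' h5
    exact_mod_cast h6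
  have hβ1 : 1 ≤ β := by
    have h5 : 0 < (v : ℝ) * (β : ℝ) := by rw [hβR]; exact mul_pos he hrk
    have h6 : (0 : ℝ) < β := by
      by_contra hcon
      push Not at hcon
      nlinarith
    exact_mod_cast h6
  have hv1 : ((v - 1 : ℕ) : ℝ) = (v : ℝ) - 1 := by
    rw [Nat.cast_sub (by omega)]; simp
  have hsq : ∀ a, (∑ j, N' a j * N' a j) + (v - 1) * β = r * k := by
    intro a
    have h5 : (v : ℝ) * (((∑ j, N' a j * N' a j) + (v - 1) * β : ℕ) : ℝ) =
        (v : ℝ) * ((r * k : ℕ) : ℝ) := by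
      have h6 := hdiag a
      rw [← hβR] at h6
      push_cast
      rw [hv1]
      linarith
    have h6 := mul_left_cancel₀ hvR.ne' h5
    exact_mod_cast h6
  -- the excess
  obtain ⟨Γ, hΓdef⟩ : ∃ Γ : ℕ, Γ = ∑ j, N' i0 j * (N' i0 j - 1) := ⟨_, rfl⟩
  have hnn : ∀ n : ℕ, n * n = n + n * (n - 1) := by
    intro n
    cases n with
    | zero => rfl
    | succ m => simp; ring
  have hΓ0 : ∑ j, N' i0 j * N' i0 j = r + Γ := by
    rw [hΓdef, ← h1 i0, ← Finset.sum_add_distrib]
    exact Finset.sum_congr rfl (fun j _ => hnn _)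
  have hΓe : Even Γ := by
    rw [hΓdef]
    refine Finset.even_sum _ (fun j _ => ?_)
    exact Nat.even_mul_pred_self _
  have hΓ2 : 2 ≤ Γ := by
    have h5 : N' i0 j0 * (N' i0 j0 - 1) ≤ Γ := by
      rw [hΓdef]
      exact Finset.single_le_sum (f := fun j => N' i0 j * (N' i0 j - 1))
        (fun _ _ => Nat.zero_le _) (Finset.mem_univ j0)
    have h6 : 2 * 1 ≤ N' i0 j0 * (N' i0 j0 - 1) := Nat.mul_le_mul hij (by omega)
    omega
  have h4 : ∀ a, ∑ j, N' a j * N' a j = r + Γ := by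
    intro a
    have h5 := hsq a
    have h6 := hsq i0
    rw [← hΓ0]
    omega
  have hrel : r * k = r + Γ + (v - 1) * β := by
    rw [← hΓ0]
    exact (hsq i0).symm
  have hconcl : Pool.Agent.Lib.MP_b24dd2_co.Concl v b k r e :=
    Pool.Agent.Lib.MP_b24dd2_co.main_comb hk hkv h1 h2 h3 h4 hβ1 hΓ2 hΓe hrel hr0 hβR.symm
  exact hconcl

private theorem case_pos {v b k r : ℕ} (hk : 2 ≤ k) (hkv : k < v)
    (D : Matrix (Fin v) (Fin b) ℕ) (hD : IsDesign k r D) (hnb : ¬ IsBinary D)
    (hE : IsEfficiencyBalanced k r D) (hr : 0 < r) (hpos : 0 < effFactor k r D) :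
    ∃ N : Matrix (Fin v) (Fin b) ℕ, IsDesign k r N ∧ IsBinary N ∧
      effFactor k r D < effFactor k r N := by
  have hv2 : 2 ≤ v := by omega
  have hv0 : 0 < v := by omega
  have hk0 : 0 < k := by omega
  have h2 := balanced_eq hv2 hr hk0 D hD hE
  rw [AA_eq hr] at h2
  unfold IsBinary at hnb
  push Not at hnb
  obtain ⟨i0, j0, hij0⟩ := hnb
  have hij : 2 ≤ D i0 j0 := hij0
  obtain ⟨e, hedef⟩ : ∃ e, e = effFactor k r D := ⟨_, rfl⟩
  rw [← hedef] at h2 hpos ⊢
  have hconcl : Pool.Agent.Lib.MP_b24dd2_co.Concl v b k r e := by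
    exact frozen_core v b k r hk hkv D hD.row hD.col ⟨i0, j0, hij⟩ e hpos h2
  obtain ⟨N, h3, h4, h5, h6, h7⟩ := hconcl
  have hN : IsDesign k r N := ⟨h3, h4⟩
  refine ⟨N, hN, h5, ?_⟩
  have hM : AA k r N + (1 : ℝ) • PP v = (1 : Matrix (Fin v) (Fin v) ℝ)
      - (1 / ((r : ℝ) * (k : ℝ))) •
        (N.map (Nat.cast : ℕ → ℝ) * (N.map (Nat.cast : ℕ → ℝ))ᵀ)
      + (1 / (v : ℝ)) • Matrix.of (fun _ _ => (1 : ℝ)) := by
    rw [AA_eq hr, one_smul, PP]
  rw [(eff_formula hv0 hr hk0 N hN (by rw [hM]; exact h6)).2, hM]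
  exact h7

private theorem cyclic {v k t : ℕ} (hk : 2 ≤ k) (hkv : k < v) (ht : 0 < t) :
    ∃ N : Matrix (Fin v) (Fin (v * t)) ℕ, IsDesign k (k * t) N ∧ IsBinary N ∧
      0 < effFactor k (k * t) N := by
  have hv0 : 0 < v := by omega
  have hk0 : 0 < k := by omega
  have hr0 : 0 < k * t := Nat.mul_pos hk0 ht
  have : NeZero v := ⟨hv0.ne'⟩
  have hcount : ∑ d : Fin v, (if d.val < k then 1 else 0) = k := by
    rw [Fin.sum_univ_eq_sum_range (fun n => if n < k then 1 else 0) v, Finset.sum_ite,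
      Finset.sum_const_zero, add_zero, Finset.sum_const, smul_eq_mul, mul_one]
    have : (Finset.range v).filter (fun n => n < k) = Finset.range k := by
      ext n
      simp only [Finset.mem_filter, Finset.mem_range]
      omega
    rw [this, Finset.card_range]
  obtain ⟨N, hNdef⟩ : ∃ N : Matrix (Fin v) (Fin (v * t)) ℕ,
      ∀ i j, N i j = if (i - (finProdFinEquiv.symm j).1).val < k then 1 else 0 :=
    ⟨fun i j => if (i - (finProdFinEquiv.symm j).1).val < k then 1 else 0, fun _ _ => rfl⟩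
  have hN : IsDesign k (k * t) N := by
    refine ⟨fun i => ?_, fun j => ?_⟩
    · simp only [hNdef]
      rw [← Equiv.sum_comp finProdFinEquiv]
      simp only [Equiv.symm_apply_apply]
      rw [Fintype.sum_prod_type]
      have hc : ∀ c : Fin v, ∑ _s : Fin t, (if (i - c).val < k then 1 else 0) =
          t * (if (i - c).val < k then 1 else 0) := by
        intro c
        rw [Finset.sum_const, Finset.card_univ, Fintype.card_fin, smul_eq_mul]
      rw [Finset.sum_congr rfl fun c _ => hc c]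
      rw [← Finset.mul_sum, ← Equiv.sum_comp (Equiv.subLeft i)]
      simp only [Equiv.subLeft_apply, sub_sub_cancel]
      rw [hcount, mul_comm]
    · simp only [hNdef]
      rw [← Equiv.sum_comp (Equiv.addRight (finProdFinEquiv.symm j).1)]
      simp only [Equiv.coe_addRight, add_sub_cancel_right]
      exact hcount
  have hbin : IsBinary N := by
    intro i j
    rw [hNdef]
    split <;> omega
  refine ⟨N, hN, hbin, ?_⟩
  have hdet : (AA k (k * t) N + (1 : ℝ) • PP v).det ≠ 0 := by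
    intro h0
    obtain ⟨x, hx0, hx⟩ := Matrix.exists_mulVec_eq_zero_iff.2 h0
    have h1 := quad hr0 hk0 N hN x
    rw [hx, dotProduct_zero] at h1
    have hkR : (0 : ℝ) < k := by exact_mod_cast hk0
    have hvR : (0 : ℝ) < v := by exact_mod_cast hv0
    have hrR : (0 : ℝ) < ((k * t : ℕ) : ℝ) := by exact_mod_cast hr0
    have hnn : ∀ j ∈ (Finset.univ : Finset (Fin (v * t))),
        0 ≤ ∑ i, ∑ i', (N i j : ℝ) * (N i' j : ℝ) * (x i - x i') ^ 2 :=
      fun j _ => Finset.sum_nonneg fun i _ => Finset.sum_nonneg fun i' _ => by positivity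
    have h2 : 0 ≤ 1 / (2 * (((k * t : ℕ) : ℝ) * k)) *
        ∑ j, ∑ i, ∑ i', (N i j : ℝ) * (N i' j : ℝ) * (x i - x i') ^ 2 := by
      have := Finset.sum_nonneg hnn
      positivity
    have h3 : 0 ≤ 1 / (v : ℝ) * (∑ i, x i) ^ 2 := by positivity
    have h4 : 1 / (v : ℝ) * (∑ i, x i) ^ 2 = 0 := by linarith
    have h5 : 1 / (2 * (((k * t : ℕ) : ℝ) * k)) *
        ∑ j, ∑ i, ∑ i', (N i j : ℝ) * (N i' j : ℝ) * (x i - x i') ^ 2 = 0 := by linarith
    have h6 : ∑ i, x i = 0 := by
      rcases mul_eq_zero.1 h4 with h | h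
      · exact absurd h (by positivity)
      · exact pow_eq_zero_iff two_ne_zero |>.1 h
    have h7 : ∑ j, ∑ i, ∑ i', (N i j : ℝ) * (N i' j : ℝ) * (x i - x i') ^ 2 = 0 := by
      rcases mul_eq_zero.1 h5 with h | h
      · exact absurd h (by positivity)
      · exact h
    have h8 : ∀ i i' j, N i j = 1 → N i' j = 1 → x i = x i' := by
      intro i i' j hi hi'
      have e1 := (Finset.sum_eq_zero_iff_of_nonneg hnn).1 h7 j (Finset.mem_univ j)
      have e2 := (Finset.sum_eq_zero_iff_of_nonneg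
        (fun i _ => Finset.sum_nonneg fun i' _ => by positivity)).1 e1 i (Finset.mem_univ i)
      have e3 := (Finset.sum_eq_zero_iff_of_nonneg (fun i' _ => by positivity)).1 e2 i'
        (Finset.mem_univ i')
      rw [hi, hi', Nat.cast_one, one_mul, one_mul] at e3
      have e4 := pow_eq_zero_iff two_ne_zero |>.1 e3
      linarith
    have h9 : ∀ c : Fin v, x (c + 1) = x c := by
      intro c
      refine h8 (c + 1) c (finProdFinEquiv (c, ⟨0, ht⟩)) ?_ ?_
      · rw [hNdef, Equiv.symm_apply_apply, if_pos]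
        have : (c + 1 - c : Fin v) = 1 := add_sub_cancel_left c 1
        rw [this, Fin.val_one', Nat.mod_eq_of_lt (by omega)]
        omega
      · rw [hNdef, Equiv.symm_apply_apply, if_pos]
        rw [sub_self]
        exact hk0
    have h10 : ∀ (n : ℕ) (hn : n < v), x ⟨n, hn⟩ = x ⟨0, hv0⟩ := by
      intro n
      induction n with
      | zero => intro hn; rfl
      | succ n ih =>
        intro hn
        have e1 := h9 ⟨n, by omega⟩
        have e2 : (⟨n, by omega⟩ + 1 : Fin v) = ⟨n + 1, hn⟩ := by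
          apply Fin.ext
          rw [Fin.val_add, Fin.val_one', Nat.mod_eq_of_lt (by omega : 1 < v)]
          exact Nat.mod_eq_of_lt hn
        rw [e2] at e1
        rw [e1, ih]
    have h11 : ∀ c : Fin v, x c = x ⟨0, hv0⟩ := fun c => h10 c.val c.isLt
    apply hx0
    funext c
    rw [h11 c, Pi.zero_apply]
    simp only [h11] at h6
    rw [Finset.sum_const, Finset.card_univ, Fintype.card_fin, nsmul_eq_mul] at h6
    rcases mul_eq_zero.1 h6 with h | h
    · exact absurd h hvR.ne'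
    · exact h
  have h0 := (eff_formula hv0 hr0 hk0 N hN hdet).1
  have hnn := eff_nonneg hv0 hr0 hk0 N hN
  have hcard := card_eff hv0 hr0 hk0 N hN
  unfold effFactor
  rw [if_neg h0]
  have hc1 : 0 < Multiset.card (effFactors k (k * t) N) := by omega
  have hpos : ∀ x ∈ (effFactors k (k * t) N).map (fun x => x⁻¹), 0 < x := by
    intro y hy
    obtain ⟨x, hx, rfl⟩ := Multiset.mem_map.1 hy
    have : x ≠ 0 := fun h => h0 (h ▸ hx)
    exact inv_pos.2 (lt_of_le_of_ne (hnn x hx) this.symm)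
  have hsum : 0 < ((effFactors k (k * t) N).map fun x => x⁻¹).sum := by
    obtain ⟨x, hx⟩ := Multiset.card_pos_iff_exists_mem.1 hc1
    obtain ⟨s, hs⟩ := Multiset.exists_cons_of_mem
      (Multiset.mem_map_of_mem (fun x : ℝ => x⁻¹) hx)
    rw [hs, Multiset.sum_cons]
    rw [hs] at hpos
    have e1 := hpos _ (Multiset.mem_cons_self _ _)
    have e2 : 0 ≤ s.sum := Multiset.sum_nonneg fun y hy =>
      (hpos y (Multiset.mem_cons_of_mem hy)).le
    linarith
  have : (0 : ℝ) < (Multiset.card (effFactors k (k * t) N) : ℝ) := by exact_mod_cast hc1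
  exact div_pos this hsum

private theorem case_zero {v b k r : ℕ} (hk : 2 ≤ k) (hkv : k < v)
    (D : Matrix (Fin v) (Fin b) ℕ) (hD : IsDesign k r D)
    (hE : IsEfficiencyBalanced k r D) (hr : 0 < r) (hneg : effFactor k r D ≤ 0) :
    ∃ N : Matrix (Fin v) (Fin b) ℕ, IsDesign k r N ∧ IsBinary N ∧
      effFactor k r D < effFactor k r N := by
  have hv2 : 2 ≤ v := by omega
  have hv0 : 0 < v := by omega
  have hk0 : 0 < k := by omega
  have hkR : (0 : ℝ) < k := by exact_mod_cast hk0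
  have hvR : (0 : ℝ) < v := by exact_mod_cast hv0
  have hrR : (0 : ℝ) < r := by exact_mod_cast hr
  have h2 := balanced_eq hv2 hr hk0 D hD hE
  rw [AA_eq hr] at h2
  -- no block contains two treatments
  have h3 : ∀ a c : Fin v, a ≠ c → ∀ j, D a j = 0 ∨ D c j = 0 := by
    intro a c hac j
    have h4 := congrFun (congrFun h2 a) c
    simp only [Matrix.sub_apply, Matrix.smul_apply, Matrix.mul_apply, Matrix.map_apply,
      Matrix.transpose_apply, Matrix.one_apply_ne hac, PP, Matrix.of_apply, smul_eq_mul] at h4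
    have h5 : ∑ j, (D a j : ℝ) * (D c j : ℝ) ≤ 0 := by
      have h6 : 1 / ((r : ℝ) * k) * ∑ j, (D a j : ℝ) * (D c j : ℝ) ≤ 0 := by
        have : 0 ≤ -(effFactor k r D) * (1 / (v : ℝ)) := by
          have : (0 : ℝ) ≤ -(effFactor k r D) := by linarith
          positivity
        linarith
      by_contra hcon
      push Not at hcon
      have : 0 < 1 / ((r : ℝ) * k) * ∑ j, (D a j : ℝ) * (D c j : ℝ) := by positivity
      linarith
    have h7 : (D a j : ℝ) * (D c j : ℝ) = 0 := by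
      have h8 : ∀ j ∈ (Finset.univ : Finset (Fin b)), 0 ≤ (D a j : ℝ) * (D c j : ℝ) :=
        fun j _ => by positivity
      have h9 := (Finset.sum_eq_zero_iff_of_nonneg h8).1
        (le_antisymm h5 (Finset.sum_nonneg h8))
      exact h9 j (Finset.mem_univ j)
    rcases mul_eq_zero.1 h7 with h | h
    · left
      exact_mod_cast h
    · right
      exact_mod_cast h
  -- every entry is `0` or `k`
  have h4 : ∀ a j, D a j = 0 ∨ D a j = k := by
    intro a j
    by_cases h0 : D a j = 0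
    · exact Or.inl h0
    · right
      have h6 : ∑ i, D i j = D a j := by
        refine Finset.sum_eq_single a (fun c _ hc => ?_) (fun h => absurd (Finset.mem_univ a) h)
        rcases h3 a c hc.symm j with h | h
        · exact absurd h h0
        · exact h
      rw [← h6, hD.col j]
  have hdvd : k ∣ r := by
    have h5 : k ∣ ∑ j, D ⟨0, hv0⟩ j := by
      refine Finset.dvd_sum fun j _ => ?_
      rcases h4 ⟨0, hv0⟩ j with h | h
      · rw [h]; exact dvd_zero _
      · rw [h]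
    rwa [hD.row] at h5
  obtain ⟨t, rfl⟩ := hdvd
  have ht : 0 < t := Nat.pos_of_mul_pos_left hr
  have hb : b = v * t := by
    have h1 : ∑ i, ∑ j, D i j = v * (k * t) := by simp [hD.row]
    have h2 : ∑ j, ∑ i, D i j = b * k := by simp [hD.col]
    have h3 : (∑ i, ∑ j, D i j : ℕ) = ∑ j, ∑ i, D i j := Finset.sum_comm
    have h5 : b * k = (v * t) * k := by rw [← h2, ← h3, h1]; ring
    exact Nat.eq_of_mul_eq_mul_right hk0 h5
  subst hb
  obtain ⟨N, hN, hbin, hEF⟩ := cyclic hk hkv ht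
  exact ⟨N, hN, hbin, lt_of_le_of_lt hneg hEF⟩

/-- For all `2 ≤ k ≤ v` and all `b`, `r`: if some non-binary efficiency-balanced block design with parameters
`(v, b, k, r)` exists, then some binary design with the same parameters has an efficiency factor larger than the one
of every non-binary efficiency-balanced design with these parameters. -/
theorem result (v b k r : ℕ) (hk : 2 ≤ k) (hkv : k ≤ v)
    (hex : ∃ D : Matrix (Fin v) (Fin b) ℕ,
      IsDesign k r D ∧ ¬ IsBinary D ∧ IsEfficiencyBalanced k r D) :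
    ∃ N : Matrix (Fin v) (Fin b) ℕ, IsDesign k r N ∧ IsBinary N ∧
      ∀ D : Matrix (Fin v) (Fin b) ℕ, IsDesign k r D → ¬ IsBinary D →
        IsEfficiencyBalanced k r D → effFactor k r D < effFactor k r N := by
  have beat : ∀ D : Matrix (Fin v) (Fin b) ℕ, IsDesign k r D → ¬ IsBinary D →
      IsEfficiencyBalanced k r D → ∃ N : Matrix (Fin v) (Fin b) ℕ, IsDesign k r N ∧ IsBinary N ∧
        effFactor k r D < effFactor k r N := by
    intro D hD hnb hE
    have hr : 0 < r := by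
      have hnb' := hnb
      unfold IsBinary at hnb'
      push Not at hnb'
      obtain ⟨i0, j0, hij⟩ := hnb'
      have h1 : D i0 j0 ≤ ∑ j, D i0 j := Finset.single_le_sum (f := fun j => D i0 j)
        (fun _ _ => Nat.zero_le _) (Finset.mem_univ j0)
      rw [hD.row i0] at h1
      omega
    rcases Nat.eq_or_lt_of_le hkv with h | h
    · exact case_full hk h D hD hnb hE hr
    · rcases lt_or_ge 0 (effFactor k r D) with h0 | h0
      · exact case_pos hk h D hD hnb hE hr h0
      · exact case_zero hk h D hD hE hr h0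
  obtain ⟨D0, hD0, hnb0, hE0⟩ := hex
  obtain ⟨N0, hN0, hB0, -⟩ := beat D0 hD0 hnb0 hE0
  have hfin : {N : Matrix (Fin v) (Fin b) ℕ | IsDesign k r N ∧ IsBinary N}.Finite := by
    refine Set.Finite.subset (Set.finite_range
      (Pool.Agent.Lib.MP_b24dd2_co.toMat (v := v) (b := b))) ?_
    rintro N ⟨-, hN⟩
    refine ⟨fun i j => decide (N i j = 1), ?_⟩
    funext i j
    unfold Pool.Agent.Lib.MP_b24dd2_co.toMat
    have := hN i j
    by_cases h : N i j = 1
    · simp [h]
    · have h0 : N i j = 0 := by omega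
      simp [h0]
  obtain ⟨N, ⟨hN, hB⟩, hmax⟩ := Set.exists_max_image _ (fun N => effFactor k r N) hfin
    ⟨N0, hN0, hB0⟩
  refine ⟨N, hN, hB, fun D hD hnb hE => ?_⟩
  obtain ⟨N1, hN1, hB1, hlt⟩ := beat D hD hnb hE
  exact lt_of_lt_of_le hlt (hmax N1 ⟨hN1, hB1⟩)

end Pool.Agent.Results.MP_b24dd2_co.BinaryBeatsBalanced
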